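import Pool.Agent.SSF.StmtsC

/-!
# Squad SSF, row HU2: the union of two closed subspaces
-/

set_option autoImplicit false

open Set Topology

namespace Pool.Agent.SSF.H47

open Pool.Agent.LSG Pool.Agent.LPR Pool.Agent.SSF

theorem compl_trans (E F G : Type) [AddCommGroup E] [Module ℝ E] [TopologicalSpace E]
    [AddCommGroup F] [Module ℝ F] [TopologicalSpace F] [AddCommGroup G] [Module ℝ G]
    [TopologicalSpace G] (h1 : Compl E F) (h2 : Compl F G) : Compl E G := by
  obtain ⟨i, p, h⟩ := h1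
  obtain ⟨j, q, k⟩ := h2
  refine ⟨j.comp i, p.comp q, fun x => ?_⟩
  show p (q (j (i x))) = x
  rw [k, h]

theorem compl_prod (E F E' F' : Type) [AddCommGroup E] [Module ℝ E] [TopologicalSpace E]
    [AddCommGroup F] [Module ℝ F] [TopologicalSpace F] [AddCommGroup E'] [Module ℝ E']
    [TopologicalSpace E'] [AddCommGroup F'] [Module ℝ F'] [TopologicalSpace F']
    (h1 : Compl E F) (h2 : Compl E' F') : Compl (E × E') (F × F') := by
  obtain ⟨i, p, h⟩ := h1
  obtain ⟨j, q, k⟩ := h2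
  refine ⟨i.prodMap j, p.prodMap q, fun x => ?_⟩
  exact Prod.ext (h x.1) (k x.2)

theorem hu2 (hF : HfoStmt) (hS : HsgStmt) : Hu2Stmt := by
  intro X _ _ A B hA hB hAB h1 h2 O hO
  have a1 : IsOpen (Subtype.val ⁻¹' O : Set ↥A) := hO.preimage continuous_subtype_val
  have a2 : IsOpen (Subtype.val ⁻¹' (O \ A) : Set ↥B) :=
    (hO.sdiff hA).preimage continuous_subtype_val
  exact compl_trans _ _ _ (hS X A B hA hB hAB O hO)
    (compl_trans _ _ _ (compl_prod _ _ _ _ (h1 _ a1) (h2 _ a2)) (hF X A B hA hB hAB O hO))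

end Pool.Agent.SSF.H47
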